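import Pool.Agent.H98.FK.COK

/-!
# [H98 FK FCK] Roth's lemma for the norm: `k` points of lacunary heights
-/

namespace Pool.Agent.H98.FK

open Finset Polynomial Pool.Agent.H72.ES Pool.Agent.H87.SA Pool.Agent.H87.SA2 Pool.Agent.H8.AW Pool.Agent.H52.AC
  Pool.Agent.H97.NW H4AR Pool.Agent.H97.FB Pool.Agent.H98.FF

/-- the order of the variables: the points from the last to the first, then `t` -/
def revP (k : ℕ) : Equiv.Perm (Fin (k + 1)) where
  toFun := Fin.lastCases (Fin.last k) fun i => Fin.castSucc (Fin.rev i)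
  invFun := Fin.lastCases (Fin.last k) fun i => Fin.castSucc (Fin.rev i)
  left_inv := fun i => by
    refine Fin.lastCases ?_ (fun i => ?_) i
    · simp only [Fin.lastCases_last]
    · simp only [Fin.lastCases_castSucc, Fin.rev_rev]
  right_inv := fun i => by
    refine Fin.lastCases ?_ (fun i => ?_) i
    · simp only [Fin.lastCases_last]
    · simp only [Fin.lastCases_castSucc, Fin.rev_rev]

theorem revP_last (k : ℕ) : revP k (Fin.last k) = Fin.last k := by
  show (Fin.lastCases (Fin.last k) (fun i => Fin.castSucc (Fin.rev i)) (Fin.last k) : Fin (k + 1)) = _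
  rw [Fin.lastCases_last]

theorem revP_cast (k : ℕ) (i : Fin k) : revP k (Fin.castSucc i) = Fin.castSucc (Fin.rev i) := by
  show (Fin.lastCases (Fin.last k) (fun i => Fin.castSucc (Fin.rev i)) (Fin.castSucc i) :
    Fin (k + 1)) = _
  rw [Fin.lastCases_castSucc]

theorem far_corek (k ν Q0 B κ1 : ℕ) (hk : 1 ≤ k) (hν : 4 ≤ ν) (hB : 1 ≤ B) (τ K0 : ℝ) (hτ : 0 < τ) :
    ∃ (R1 K1 δ : ℝ) (c : ℕ), 1 ≤ R1 ∧ K0 ≤ K1 ∧ 1 ≤ K1 ∧ 0 < δ ∧ cA ν ≤ c ∧
    ∀ {Dn Dl κ e M : ℕ} {X0 R : ℝ} (an : Pool.Agent.H87.AX.AnchX Dn Dl κ e M X0 R) {q N : ℕ}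
      (_ : IntA an q N B κ1) (P : Fin k → Ptd ν),
      Bnd Q0 Dn Dl κ e M X0 R → Scl c X0 R P → (q : ℝ) ≤ R →
      (∀ i j : Fin k, i < j → R1 * (P i).ell ≤ (P j).ell) →
      ∀ i0 : Fin k, (∀ v, (P v).ell ≤ (P i0).ell) → ∀ Y : ℝ, Y = K1 * (P i0).ell →
      ∀ A : ℕ → ℕ → Mo P (Nf P Y) → ℤ, NZA (Jx X0 Y) Dn A →
        (∀ s j μ, |((A s j μ : ℤ) : ℝ)| ≤ Real.exp (δ * Y)) →
        ¬ ∀ (l : ℕ) (K : Fin k → ℕ), (l : ℝ) * Real.log X0 + ∑ v, (P v).ell * (K v : ℝ) < τ * Y →
          ∑ μ, Fl an (Jx X0 Y) A l μ *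
            ((∏ v, PowerSeries.coeff (K v) ((P v).psi ((μ v).1, (μ v).2)) : ℤ) : ℝ) = 0 := by
  obtain ⟨S, C, K2, hS1, hC0, hK21, hnorm⟩ := norm_corek k ν Q0 B κ1 hk hν hB
  have hS0 : 0 < S := by linarith
  obtain ⟨cr, hcr0, hcr1, hroth⟩ := roth_perm (k + 1) (τ / (8 * S)) (by positivity)
  set K1 : ℝ := max K0 K2 with hK1
  set R1 : ℝ := max 1 (2 / cr) with hR1
  set c : ℕ := max (max (cA ν) 3) (max ⌈2 * Q0 / cr⌉₊ (max (Q0 + 2) ⌈8 * (C + 4 * S) / (cr * S)⌉₊)) with hc
  have hQR : (0 : ℝ) ≤ Q0 := Nat.cast_nonneg _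
  have hcc1 : 2 * Q0 / cr ≤ (c : ℝ) := (Nat.le_ceil _).trans
    (Nat.cast_le.2 ((le_max_left _ _).trans (le_max_right _ _)))
  have hcc2 : (Q0 : ℝ) + 2 ≤ (c : ℝ) := by
    have h2 : Q0 + 2 ≤ c := (le_max_left _ _).trans ((le_max_right _ _).trans (le_max_right _ _))
    have h1 : ((Q0 + 2 : ℕ) : ℝ) ≤ (c : ℝ) := Nat.cast_le.2 h2
    push_cast at h1
    exact h1
  have hcc3 : 8 * (C + 4 * S) / (cr * S) ≤ (c : ℝ) := (Nat.le_ceil _).trans
    (Nat.cast_le.2 ((le_max_right _ _).trans ((le_max_right _ _).trans (le_max_right _ _))))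
  have hcA : cA ν ≤ c := (le_max_left _ _).trans (le_max_left _ _)
  have hc3 : 3 ≤ c := (le_max_right _ _).trans (le_max_left _ _)
  refine ⟨R1, K1, cr / 4, c, le_max_left _ _, le_max_left _ _, hK21.trans (le_max_right _ _),
    by positivity, hcA, ?_⟩
  intro Dn Dl κ e M X0 R an q N ia P hbnd hscl hqR hsep i0 hmax Y hYdef A hNZ hA hvan
  have hK11 : 1 ≤ K1 := hK21.trans (le_max_right _ _)
  obtain ⟨h8R, hl0c, hl00⟩ := scl_factsk hc3 hbnd.R2 hscl
  have hR2 := hbnd.R2
  have hX0 : 0 < X0 := by linarith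
  have hcR : (0 : ℝ) < c := by linarith
  have hl2 : 1 / 2 ≤ Real.log 2 := by
    have := Real.log_two_gt_d9
    linarith
  have hl20 : 0 < Real.log 2 := by linarith
  have hell : ∀ v, (c : ℝ) * Real.log 2 ≤ (P v).ell := fun v => ((P v).ell_ge (hscl.thr v)).2
  have hell0 : ∀ v, 0 < (P v).ell := fun v => lt_of_lt_of_le (by positivity) (hell v)
  have hYv : ∀ v, K2 * (P v).ell ≤ Y := by
    intro v
    rw [hYdef]
    exact mul_le_mul (le_max_right _ _) (hmax v) (hell0 v).le (by linarith)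
  have hYv1 : ∀ v, (P v).ell ≤ Y := fun v =>
    (le_mul_of_one_le_left (hell0 v).le hK21).trans (hYv v)
  have hY0 : 0 < Y := lt_of_lt_of_le (hell0 i0) (hYv1 i0)
  obtain ⟨N0, hN00, hdeg, hdegl, hlog, hidx⟩ := hnorm an ia P c hcA hc3 hbnd hscl hqR Y hYv (cr / 4)
    (τ * Y) (by positivity) A hNZ hA hvan
  -- the height of the rational point of the anchor
  have hNR : (1 : ℝ) ≤ N := by exact_mod_cast ia.N1
  have hqR1 : (1 : ℝ) ≤ q := by exact_mod_cast ia.q1
  have he1 : (1 : ℝ) ≤ e := by exact_mod_cast ia.e1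
  have heQ : (e : ℝ) ≤ Q0 := by exact_mod_cast hbnd.e_le
  set lam : ℝ := Real.log (N : ℝ) with hlam
  have hpow : (e : ℝ) * Real.log X0 = e * Real.log q + lam := by
    have h1 := congrArg Real.log ia.pow
    rw [Real.log_pow] at h1
    rw [h1]
    push_cast
    rw [Real.log_mul (by positivity) (by positivity), Real.log_pow]
  have hlq0 : 0 ≤ Real.log (q : ℝ) := Real.log_nonneg hqR1
  have hlq : Real.log (q : ℝ) ≤ Real.log X0 / 2 := by
    have h1 : Real.log (q : ℝ) ≤ Real.log (2 * R) := Real.log_le_log (by linarith) (by linarith)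
    have h2 : 0 ≤ Real.log (2 * R) := Real.log_nonneg (by linarith)
    have h3 : 2 * Real.log (2 * R) ≤ c * Real.log (2 * R) := mul_le_mul_of_nonneg_right (by linarith) h2
    linarith
  have hlam1 : Real.log X0 ≤ 2 * lam := by
    have h1 : (e : ℝ) * Real.log q ≤ e * (Real.log X0 / 2) := mul_le_mul_of_nonneg_left hlq (by linarith)
    have h2 : Real.log X0 ≤ e * Real.log X0 := le_mul_of_one_le_left hl00.le he1
    linarith
  have hlam0 : 0 < lam := by linarith
  have hlam2 : lam ≤ Q0 * Real.log X0 := by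
    have h1 : 0 ≤ (e : ℝ) * Real.log q := by positivity
    have h2 : (e : ℝ) * Real.log X0 ≤ Q0 * Real.log X0 := mul_le_mul_of_nonneg_right heQ hl00.le
    linarith
  have hlam3 : ∀ v, 2 / cr * lam ≤ (P v).ell := by
    intro v
    refine le_trans ?_ (hscl.low v)
    calc 2 / cr * lam ≤ 2 / cr * (Q0 * Real.log X0) := mul_le_mul_of_nonneg_left hlam2 (by positivity)
      _ = 2 * Q0 / cr * Real.log X0 := by ring
      _ ≤ c * Real.log X0 := mul_le_mul_of_nonneg_right hcc1 hl00.le
  have h2cr : 1 ≤ 2 / cr := by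
    rw [le_div_iff₀ hcr0]
    linarith
  have hlamY : lam ≤ Y := (le_mul_of_one_le_left hlam0.le h2cr).trans ((hlam3 i0).trans (hYv1 i0))
  -- the weights
  obtain ⟨w, hw⟩ : ∃ w : Fin (k + 1) → ℝ, w = Fin.lastCases lam fun v : Fin k => (P v).ell := ⟨_, rfl⟩
  have hwl : w (Fin.last k) = lam := by simp only [hw, Fin.lastCases_last]
  have hwc : ∀ v : Fin k, w (Fin.castSucc v) = (P v).ell := fun v => by
    simp only [hw, Fin.lastCases_castSucc]
  have hw0 : ∀ j, 0 < w j := by
    intro j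
    refine Fin.lastCases ?_ (fun v => ?_) j
    · rw [hwl]; exact hlam0
    · rw [hwc]; exact hell0 v
  have hwY : ∀ j, w j ≤ Y := by
    intro j
    refine Fin.lastCases ?_ (fun v => ?_) j
    · rw [hwl]; exact hlamY
    · rw [hwc]; exact hYv1 v
  have hwlow : ∀ j, c * Real.log 2 / 2 ≤ w j := by
    intro j
    refine Fin.lastCases ?_ (fun v => ?_) j
    · rw [hwl]
      have h1 : (c : ℝ) * Real.log 2 ≤ Real.log X0 := by
        refine le_trans ?_ hl0c
        refine mul_le_mul_of_nonneg_left (Real.log_le_log (by norm_num) (by linarith)) hcR.le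
      linarith
    · rw [hwc]
      have := hell v
      have h2 : 0 ≤ (c : ℝ) * Real.log 2 := by positivity
      linarith
  have hdegw : ∀ j, (N0.degreeOf j : ℝ) * w j ≤ 2 * S * Y := by
    intro j
    refine Fin.lastCases ?_ (fun v => ?_) j
    · rw [hwl]; exact hdegl
    · rw [hwc]; exact hdeg v
  set a : Fin (k + 1) → ℝ := fun j => 2 * S * Y / w j with ha
  have ha2 : ∀ j, 2 ≤ a j := by
    intro j
    simp only [ha]
    rw [le_div_iff₀ (hw0 j)]
    have := hwY j
    nlinarith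
  have ha0 : ∀ j, 0 < a j := fun j => by linarith [ha2 j]
  set d : Fin (k + 1) → ℕ := fun j => ⌊a j⌋₊ with hd
  have hd1 : ∀ j, (d j : ℝ) ≤ a j := fun j => Nat.floor_le (ha0 j).le
  have hd2 : ∀ j, a j / 2 ≤ d j := by
    intro j
    have h1 := Nat.lt_floor_add_one (a j)
    have h2 := ha2 j
    have h3 : a j < (d j : ℝ) + 1 := h1
    linarith
  have hd3 : ∀ j, 1 ≤ d j := by
    intro j
    have h1 := hd2 j
    have h2 := ha2 j
    exact_mod_cast (by linarith : (1 : ℝ) ≤ d j)
  set D : ℝ := 4 * S * (Y / (c * Real.log 2)) with hD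
  have haD : ∀ j, a j ≤ D := by
    intro j
    have h1 : a j ≤ 2 * S * Y / (c * Real.log 2 / 2) :=
      div_le_div_of_nonneg_left (by positivity) (by positivity) (hwlow j)
    refine h1.trans (le_of_eq ?_)
    rw [hD]
    field_simp
    ring
  have hD1 : 1 ≤ D := by
    have h1 := haD (Fin.last k)
    have h2 := ha2 (Fin.last k)
    linarith
  -- heights
  have hht : ∀ j, Real.log (ht (rpt P N j)) = w j := by
    intro j
    refine Fin.lastCases ?_ (fun v => ?_) j
    · rw [hwl]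
      unfold rpt ht
      rw [Fin.lastCases_last, hlam]
      have hN0 : (N : ℤ) ≠ 0 := by
        have := ia.N1
        omega
      have h1 : (1 / (N : ℚ)) = ((N : ℚ))⁻¹ := by rw [one_div]
      rw [h1, Rat.inv_natCast_num_of_pos (by have := ia.N1; omega), Rat.inv_natCast_den_of_pos
        (by have := ia.N1; omega)]
      congr 1
      push_cast
      rw [abs_one]
      exact max_eq_right hNR
    · rw [hwc]
      unfold rpt ht
      rw [Fin.lastCases_castSucc]
      have hx0 : (P v).x ≠ 0 := ((P v).facts hν ((P v).thr_mono hcA (hscl.thr v))).2.2.2.2.1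
      unfold Ptd.ell
      rw [Rat.num_intCast, Rat.den_intCast]
      congr 1
      apply max_eq_left
      rw [Nat.cast_one]
      have h1 : 1 ≤ |(P v).x| := Int.one_le_abs hx0
      exact_mod_cast h1
  have hsepg : ∀ i j, 2 / cr * w j ≤ w i → (d i : ℝ) ≤ cr * d j := by
    intro i j h3
    have h2 : a i ≤ cr / 2 * a j := by
      simp only [ha]
      rw [div_le_iff₀ (hw0 i)]
      have h4 : cr / 2 * (2 * S * Y / w j) * (2 / cr * w j) = 2 * S * Y := by
        have := (hw0 j).ne'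
        field_simp
      have h5 : 0 ≤ cr / 2 * (2 * S * Y / w j) := by
        have := hw0 j
        positivity
      calc 2 * S * Y = cr / 2 * (2 * S * Y / w j) * (2 / cr * w j) := h4.symm
        _ ≤ cr / 2 * (2 * S * Y / w j) * w i := mul_le_mul_of_nonneg_left h3 h5
    have h6 := hd1 i
    have h7 := mul_le_mul_of_nonneg_left (hd2 j) hcr0.le
    linarith
  have hord : ∀ i j, i < j → (d (revP k i) : ℝ) ≤ cr * d (revP k j) := by
    intro i j
    refine Fin.lastCases ?_ (fun j => ?_) j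
    · refine Fin.lastCases ?_ (fun i => ?_) i
      · intro h
        exact absurd h (lt_irrefl _)
      · intro _
        rw [revP_last, revP_cast]
        refine hsepg _ _ ?_
        rw [hwc, hwl]
        exact hlam3 _
    · refine Fin.lastCases ?_ (fun i => ?_) i
      · intro h
        exact absurd h (not_lt.2 (Fin.le_last _))
      · intro h
        rw [revP_cast, revP_cast]
        refine hsepg _ _ ?_
        rw [hwc, hwc]
        exact (mul_le_mul_of_nonneg_right (le_max_right _ _) (hell0 _).le).trans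
          (hsep _ _ (Fin.rev_lt_rev.2 (Fin.castSucc_lt_castSucc_iff.1 h)))
  obtain ⟨f, hf1, hf2⟩ := hroth (revP k) d (rpt P N) N0 D hD1 hd3
    (fun j => (hd1 j).trans (haD j))
    hord
    hN00
    (fun j => by
      apply Nat.le_floor
      simp only [ha]
      rw [le_div_iff₀ (hw0 j)]
      exact hdegw j)
    (fun j => by
      rw [hht j]
      have h1 : S * Y ≤ (d j : ℝ) * w j := by
        have h2 := mul_le_mul_of_nonneg_right (hd2 j) (hw0 j).le
        have h3 : a j / 2 * w j = S * Y := by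
          simp only [ha]
          have := (hw0 j).ne'
          field_simp
        rwa [h3] at h2
      have h4 := mul_le_mul_of_nonneg_left h1 hcr0.le
      have h5 : (C + 4 * S) * (Y / (c * Real.log 2)) ≤ cr * S * Y / 4 := by
        rw [mul_div_assoc', div_le_iff₀ (by positivity)]
        have h6 : 8 * (C + 4 * S) ≤ c * (cr * S) := by
          rwa [div_le_iff₀ (by positivity)] at hcc3
        have h7 : 0 ≤ cr * S * Y := by positivity
        have h8 : c * (cr * S) / 2 ≤ c * (cr * S) * Real.log 2 := by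
          have : 0 ≤ c * (cr * S) := by positivity
          nlinarith
        have h9 : (C + 4 * S) ≤ cr * S * (c * Real.log 2) / 4 := by nlinarith
        calc (C + 4 * S) * Y ≤ cr * S * (c * Real.log 2) / 4 * Y :=
              mul_le_mul_of_nonneg_right h9 hY0.le
          _ = cr * S * Y / 4 * (c * Real.log 2) := by ring
      have h10 : S * (cr / 4 * Y) = cr * S * Y / 4 := by ring
      rw [h10] at hlog
      have h11 : C * (Y / (c * Real.log 2)) + D = (C + 4 * S) * (Y / (c * Real.log 2)) := by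
        rw [hD]
        ring
      have h12 : 0 ≤ cr * S * Y := by positivity
      linarith)
  -- contradiction
  apply hf2
  apply hidx f
  have h1 : ∀ j, w j * (f j : ℝ) ≤ 2 * S * Y * ((f j : ℝ) / (d j : ℝ)) := by
    intro j
    have hdv : (0 : ℝ) < d j := by exact_mod_cast hd3 j
    have h2 : w j * (d j : ℝ) ≤ 2 * S * Y := by
      have h3 := hd1 j
      simp only [ha] at h3
      rw [le_div_iff₀ (hw0 j)] at h3
      linarith
    rw [mul_div_assoc', le_div_iff₀ hdv]
    have h4 : (0 : ℝ) ≤ f j := Nat.cast_nonneg _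
    nlinarith
  have h2 : ∑ j, w j * (f j : ℝ) ≤ τ * Y / 4 := by
    calc ∑ j, w j * (f j : ℝ) ≤ ∑ j, 2 * S * Y * ((f j : ℝ) / (d j : ℝ)) :=
          Finset.sum_le_sum fun j _ => h1 j
      _ = 2 * S * Y * wt d f := by rw [← Finset.mul_sum]; rfl
      _ ≤ 2 * S * Y * (τ / (8 * S)) := mul_le_mul_of_nonneg_left hf1 (by positivity)
      _ = τ * Y / 4 := by field_simp; ring
  rw [Fin.sum_univ_castSucc] at h2
  simp only [hwc, hwl] at h2
  have h3 : (f (Fin.last k) : ℝ) * Real.log X0 ≤ 2 * (lam * (f (Fin.last k) : ℝ)) := by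
    have : (0 : ℝ) ≤ f (Fin.last k) := Nat.cast_nonneg _
    nlinarith
  have h4 : 0 ≤ ∑ v : Fin k, (P v).ell * (f (Fin.castSucc v) : ℝ) :=
    Finset.sum_nonneg fun v _ => mul_nonneg (hell0 v).le (Nat.cast_nonneg _)
  have h5 : 0 < τ * Y := mul_pos hτ hY0
  linarith

end Pool.Agent.H98.FK
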